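import Pool.Agent.H24.Magic.Asym

/-!
The number `M(n)` of magic squares of order `n`, up to rotations and reflections, satisfies
`log M(n) = 2 n ^ 2 log n - n ^ 2 - E(n)` with `c n log n ≤ E(n) ≤ C n (log n) ^ 2` for all large
`n`.
-/

set_option autoImplicit false

namespace Pool.Agent.Results.MP_f80039_co.MagicSquareCount

open Pool.Agent.H24.Magic

/-- Asymptotic enumeration of the magic squares of order `n`. -/
theorem result :
    ∃ c C : ℝ, 0 < c ∧ 0 < C ∧ ∀ᶠ n : ℕ in Filter.atTop,
      2 * (n : ℝ) ^ 2 * Real.log n - (n : ℝ) ^ 2 - C * (n * (Real.log n) ^ 2) ≤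
        Real.log (numMagic n) ∧
      Real.log (numMagic n) ≤
        2 * (n : ℝ) ^ 2 * Real.log n - (n : ℝ) ^ 2 - c * (n * Real.log n) :=
  main_asymptotic

end Pool.Agent.Results.MP_f80039_co.MagicSquareCount
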